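import Mathlib
import Pool.Agent.Lib.MP_781ce4_nt.Final

/-!
# Parity of the number of missing integers versus partitions into distinct parts

For every integer `n > 10` the difference between the number of partitions of `n` with an even
number of missing integers and the number of those with an odd number of missing integers is
smaller than the number of partitions of `n` into distinct parts.
-/

namespace Pool.Agent.Results.MP_781ce4_nt.MissingParity

open Finset

/-- The missing integers of a partition `p` of `n`: the integers `k` with `1 ≤ k < ℓ` that do not
occur as a part of `p`, where `ℓ` (the supremum of the multiset of parts) is the largest part. -/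
def missingIntegers {n : ℕ} (p : n.Partition) : Finset ℕ :=
  (Finset.Ico 1 p.parts.sup).filter (fun k => k ∉ p.parts)

/-- `P n m` is the number of partitions of `n` with exactly `m` missing integers. -/
def P (n m : ℕ) : ℕ :=
  (Finset.univ.filter (fun p : n.Partition => (missingIntegers p).card = m)).card

/-- `Me n` is the sum of `P n m` over the even `m` (all `m` with `P n m ≠ 0` are at most `n`). -/
def Me (n : ℕ) : ℕ := ∑ m ∈ (Finset.range (n + 1)).filter (fun m => Even m), P n m

/-- `Mo n` is the sum of `P n m` over the odd `m` (all `m` with `P n m ≠ 0` are at most `n`). -/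
def Mo (n : ℕ) : ℕ := ∑ m ∈ (Finset.range (n + 1)).filter (fun m => Odd m), P n m

/-- A partition of `n` has at most `n` missing integers. -/
theorem card_missing_le {n : ℕ} (p : n.Partition) : (missingIntegers p).card ≤ n := by
  have h1 : (missingIntegers p).card ≤ (Finset.Ico 1 p.parts.sup).card :=
    Finset.card_le_card (Finset.filter_subset _ _)
  rw [Nat.card_Ico] at h1
  have h2 : p.parts.sup ≤ n :=
    Multiset.sup_le.2 (fun b hb => Nat.Partition.le_of_mem_parts hb)
  omega

/-- The sums defining `Me` and `Mo` leave out only zero terms. -/
theorem P_eq_zero {n m : ℕ} (h : n < m) : P n m = 0 := by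
  unfold P
  rw [Finset.card_eq_zero, Finset.filter_eq_empty_iff]
  intro p _ hp
  have := card_missing_le p
  omega

theorem sum_P_eq (n : ℕ) (E : ℕ → Prop) [DecidablePred E] :
    ∑ m ∈ (Finset.range (n + 1)).filter E, P n m =
      (Finset.univ.filter (fun p : n.Partition => E (missingIntegers p).card)).card := by
  rw [Finset.card_eq_sum_card_fiberwise (f := fun p : n.Partition => (missingIntegers p).card)
    (t := (Finset.range (n + 1)).filter E)]
  · apply Finset.sum_congr rfl
    intro m hm
    unfold P
    congr 1
    ext p
    simp only [Finset.mem_filter, Finset.mem_univ, true_and]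
    constructor
    · intro h
      refine ⟨?_, h⟩
      rw [h]
      exact (Finset.mem_filter.1 hm).2
    · rintro ⟨_, h⟩
      exact h
  · intro p hp
    have h1 := card_missing_le p
    have h2 := (Finset.mem_filter.1 hp).2
    simp only [Finset.coe_filter, Finset.mem_range, Set.mem_ofPred_eq]
    exact ⟨by omega, h2⟩

/-- For every integer `n > 10`, `Me n - Mo n < q n`, where `q n` is the number of partitions of
`n` into distinct parts. -/
theorem result : ∀ n : ℕ, 10 < n →
    (Me n : ℤ) - (Mo n : ℤ) < ((Nat.Partition.distincts n).card : ℤ) := by
  intro n hn
  have h := Pool.Agent.Lib.MP781.main hn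
  unfold Me Mo
  rw [sum_P_eq n (fun m => Even m), sum_P_eq n (fun m => Odd m)]
  exact h

end Pool.Agent.Results.MP_781ce4_nt.MissingParity
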